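import Mathlib

/-!
# Project ZU (MP_79ce01_nt): mean and Jensen bound of a trigonometric polynomial (AVG)
-/

namespace Pool.H42.ZU

open Finset Real MeasureTheory Metric

/-- the mean is the coefficient of `z ^ d` -/
def S_AVG1 : Prop := ∀ (n : ℕ) (r : Fin n → ℤ) (d : ℕ) (hd : d < n),
  Real.circleAverage (fun z => ((z⁻¹) ^ d * (∑ j, (r j : ℂ) * z ^ (j : ℕ))).re) 0 1 =
    (r ⟨d, hd⟩ : ℝ)

/-- the mean of the logarithm is at most the logarithm of the mean -/
def S_AVG2 : Prop := ∀ (n : ℕ) (r : Fin n → ℤ) (d : ℕ) (hd : d < n),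
  (∀ z : ℂ, ‖z‖ = 1 → 0 < ((z⁻¹) ^ d * (∑ j, (r j : ℂ) * z ^ (j : ℕ))).re) →
  Real.circleAverage (fun z => Real.log ((z⁻¹) ^ d * (∑ j, (r j : ℂ) * z ^ (j : ℕ))).re) 0 1 ≤
    Real.log (r ⟨d, hd⟩ : ℝ)

lemma cmn (θ : ℝ) : ‖circleMap 0 1 θ‖ = 1 := by
  rw [norm_circleMap_zero, abs_one]

lemma cont_mono (n : ℕ) (r : Fin n → ℤ) (d : ℕ) :
    Continuous fun θ : ℝ => ((circleMap 0 1 θ)⁻¹) ^ d *
      (∑ j, (r j : ℂ) * (circleMap 0 1 θ) ^ (j : ℕ)) := by
  have hc : Continuous fun θ : ℝ => circleMap 0 1 θ := continuous_circleMap 0 1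
  have h0 : ∀ θ : ℝ, circleMap 0 1 θ ≠ 0 := fun θ h => by
    have := cmn θ
    rw [h, norm_zero] at this
    exact zero_ne_one this
  refine ((hc.inv₀ h0).pow d).mul ?_
  exact continuous_finsetSum _ fun j _ => continuous_const.mul (hc.pow _)

lemma avg_mono (j d : ℕ) :
    Real.circleAverage (fun z : ℂ => (z⁻¹) ^ d * z ^ j) 0 1 = if j = d then 1 else 0 := by
  rw [Real.circleAverage_eq_circleIntegral one_ne_zero]
  split_ifs with h
  · subst h
    have e1 : (∮ z in C(0, 1), (z - 0)⁻¹ • ((z⁻¹) ^ j * z ^ j)) = ∮ z in C(0, 1), (z - 0)⁻¹ := by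
      refine circleIntegral.integral_congr zero_le_one fun z hz => ?_
      have hz0 : z ≠ 0 := by
        intro h0
        rw [h0, mem_sphere_zero_iff_norm, norm_zero] at hz
        exact zero_ne_one hz
      simp only [sub_zero, smul_eq_mul]
      rw [inv_pow, inv_mul_cancel₀ (pow_ne_zero _ hz0), mul_one]
    rw [e1, circleIntegral.integral_sub_center_inv 0 one_ne_zero, smul_eq_mul]
    exact inv_mul_cancel₀ (by simp [Real.pi_ne_zero])
  · have e1 : (∮ z in C(0, 1), (z - 0)⁻¹ • ((z⁻¹) ^ d * z ^ j)) =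
        ∮ z in C(0, 1), (z - 0) ^ ((j : ℤ) - d - 1) := by
      refine circleIntegral.integral_congr zero_le_one fun z hz => ?_
      have hz0 : z ≠ 0 := by
        intro h0
        rw [h0, mem_sphere_zero_iff_norm, norm_zero] at hz
        exact zero_ne_one hz
      simp only [sub_zero, smul_eq_mul]
      rw [zpow_sub₀ hz0, zpow_sub₀ hz0, zpow_one, zpow_natCast, zpow_natCast, inv_pow]
      field_simp
    rw [e1, circleIntegral.integral_sub_zpow_of_ne (by omega), smul_zero]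

theorem AVG1 : S_AVG1 := by
  intro n r d hd
  have hint : ∀ j : Fin n, CircleIntegrable (fun z : ℂ => (r j : ℂ) * ((z⁻¹) ^ d * z ^ (j : ℕ))) 0 1 := by
    intro j
    have hc : Continuous fun θ : ℝ => circleMap 0 1 θ := continuous_circleMap 0 1
    have h0 : ∀ θ : ℝ, circleMap 0 1 θ ≠ 0 := fun θ h => by
      have := cmn θ
      rw [h, norm_zero] at this
      exact zero_ne_one this
    exact (continuous_const.mul (((hc.inv₀ h0).pow d).mul (hc.pow _))).intervalIntegrable _ _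
  have e1 : Real.circleAverage (fun z : ℂ => (z⁻¹) ^ d * (∑ j, (r j : ℂ) * z ^ (j : ℕ))) 0 1 =
      (r ⟨d, hd⟩ : ℂ) := by
    have : (fun z : ℂ => (z⁻¹) ^ d * (∑ j, (r j : ℂ) * z ^ (j : ℕ))) =
        fun z => ∑ j : Fin n, (r j : ℂ) * ((z⁻¹) ^ d * z ^ (j : ℕ)) := by
      funext z
      rw [mul_sum]
      exact sum_congr rfl fun j _ => by ring
    rw [this, Real.circleAverage_fun_sum fun j _ => hint j]
    have e2 : ∀ j : Fin n, Real.circleAverage (fun z : ℂ => (r j : ℂ) * ((z⁻¹) ^ d * z ^ (j : ℕ))) 0 1 =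
        (r j : ℂ) * (if (j : ℕ) = d then 1 else 0) := by
      intro j
      have := Real.circleAverage_fun_smul (a := (r j : ℂ)) (f := fun z : ℂ => (z⁻¹) ^ d * z ^ (j : ℕ))
        (c := 0) (R := 1)
      simp only [smul_eq_mul] at this
      rw [this, avg_mono]
    rw [sum_congr rfl fun j _ => e2 j]
    rw [sum_eq_single (⟨d, hd⟩ : Fin n)]
    · simp
    · intro j _ hj
      rw [if_neg (fun h => hj (Fin.ext h)), mul_zero]
    · intro h
      exact absurd (mem_univ _) h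
  have e3 := congrArg Complex.re e1
  rw [Real.circleAverage_def] at e3 ⊢
  rw [show ((2 * π)⁻¹ • ∫ θ in (0 : ℝ)..2 * π, (((circleMap 0 1 θ)⁻¹) ^ d *
      (∑ j, (r j : ℂ) * (circleMap 0 1 θ) ^ (j : ℕ)))).re =
      (2 * π)⁻¹ • (∫ θ in (0 : ℝ)..2 * π, (((circleMap 0 1 θ)⁻¹) ^ d *
      (∑ j, (r j : ℂ) * (circleMap 0 1 θ) ^ (j : ℕ)))).re from Complex.smul_re _ _] at e3
  have e4 := Complex.reCLM.intervalIntegral_comp_comm
    ((cont_mono n r d).intervalIntegrable (μ := volume) 0 (2 * π))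
  simp only [Complex.reCLM_apply] at e4
  rw [e4, e3]
  simp

theorem AVG2 : S_AVG2 := by
  intro n r d hd hpos
  set T : ℂ → ℝ := fun z => ((z⁻¹) ^ d * (∑ j, (r j : ℂ) * z ^ (j : ℕ))).re with hT
  have hcT : Continuous fun θ : ℝ => T (circleMap 0 1 θ) :=
    Complex.continuous_re.comp (cont_mono n r d)
  have hTi : CircleIntegrable T 0 1 := hcT.intervalIntegrable _ _
  have hav : Real.circleAverage T 0 1 = (r ⟨d, hd⟩ : ℝ) := AVG1 n r d hd
  have hr : (0 : ℝ) < (r ⟨d, hd⟩ : ℝ) := by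
    rw [← hav, Real.circleAverage_def, smul_eq_mul]
    refine mul_pos (by positivity) ?_
    exact intervalIntegral.intervalIntegral_pos_of_pos (hcT.intervalIntegrable _ _)
      (fun θ => hpos _ (cmn θ)) (by positivity)
  set ρ : ℝ := (r ⟨d, hd⟩ : ℝ) with hρ
  have hlog : CircleIntegrable (fun z => Real.log (T z)) 0 1 :=
    (hcT.log fun θ => (hpos _ (cmn θ)).ne').intervalIntegrable _ _
  have hsi : CircleIntegrable (fun z => ρ⁻¹ • T z) 0 1 := by
    have h : Continuous fun θ : ℝ => ρ⁻¹ • T (circleMap 0 1 θ) := hcT.const_smul ρ⁻¹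
    exact h.intervalIntegrable _ _
  have hci : CircleIntegrable (fun _ : ℂ => Real.log ρ - 1) 0 1 := circleIntegrable_const _ _ _
  have h2 : CircleIntegrable (fun z => (Real.log ρ - 1) + ρ⁻¹ • T z) 0 1 := hci.add hsi
  have h3 : Real.circleAverage (fun z => Real.log (T z)) 0 1 ≤
      Real.circleAverage (fun z => (Real.log ρ - 1) + ρ⁻¹ • T z) 0 1 := by
    refine Real.circleAverage_mono hlog h2 ?_
    intro z hz
    have hz1 : ‖z‖ = 1 := by simpa using hz
    have h4 := hpos z hz1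
    have h5 := Real.log_le_sub_one_of_pos (div_pos h4 hr)
    rw [Real.log_div h4.ne' hr.ne'] at h5
    simp only [smul_eq_mul]
    have : T z / ρ = ρ⁻¹ * T z := by rw [div_eq_inv_mul]
    have h6 : Real.log (T z) - Real.log ρ ≤ T z / ρ - 1 := h5
    linarith
  refine h3.trans (le_of_eq ?_)
  rw [Real.circleAverage_fun_add hci hsi, Real.circleAverage_const, Real.circleAverage_fun_smul, hav,
    smul_eq_mul, inv_mul_cancel₀ hr.ne']
  ring

end Pool.H42.ZU
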