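import Mathlib

/-!
# Project ZU (MP_79ce01_nt): rounding a list of coefficients down (FLOOR)
-/

namespace Pool.H42.ZU

open Finset

/-- rounding up the coefficients after a right shift: `n` is a common error -/
def S_STEPR : Prop := ∀ (n : ℕ) (r q : Fin n → ℤ) (e d : ℕ),
  (∀ j, 2 ^ e * q j ≤ r j ∧ r j < 2 ^ e * (q j + 1)) → d < n → ∀ z : ℂ, ‖z‖ = 1 →
  ((z⁻¹) ^ d * (∑ j, (r j : ℂ) * z ^ (j : ℕ))).re ≤
    2 ^ e * (((z⁻¹) ^ d * (∑ j, (q j : ℂ) * z ^ (j : ℕ))).re + n)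

theorem FLOOR : S_STEPR := by
  intro n r q e d h _ z hz
  have hs : ∀ j, |((r j : ℝ) - 2 ^ e * (q j : ℝ))| ≤ 2 ^ e := by
    intro j
    obtain ⟨h1, h2⟩ := h j
    have h1' : (2 : ℝ) ^ e * (q j : ℝ) ≤ (r j : ℝ) := by exact_mod_cast h1
    have h2' : (r j : ℝ) < (2 : ℝ) ^ e * ((q j : ℝ) + 1) := by exact_mod_cast h2
    rw [abs_le]
    constructor <;> nlinarith [pow_pos (show (0 : ℝ) < 2 by norm_num) e]
  have e1 : (∑ j, (r j : ℂ) * z ^ (j : ℕ)) =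
      2 ^ e * (∑ j, (q j : ℂ) * z ^ (j : ℕ)) +
        ∑ j, ((((r j : ℝ) - 2 ^ e * (q j : ℝ) : ℝ)) : ℂ) * z ^ (j : ℕ) := by
    rw [mul_sum, ← sum_add_distrib]
    refine sum_congr rfl fun j _ => ?_
    push_cast
    ring
  have e2 : ‖(z⁻¹) ^ d * ∑ j, ((((r j : ℝ) - 2 ^ e * (q j : ℝ) : ℝ)) : ℂ) * z ^ (j : ℕ)‖ ≤
      2 ^ e * n := by
    rw [norm_mul, norm_pow, norm_inv, hz, inv_one, one_pow, one_mul]
    refine (norm_sum_le _ _).trans ?_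
    calc ∑ j : Fin n, ‖((((r j : ℝ) - 2 ^ e * (q j : ℝ) : ℝ)) : ℂ) * z ^ (j : ℕ)‖
        ≤ ∑ _j : Fin n, (2 : ℝ) ^ e := by
          refine sum_le_sum fun j _ => ?_
          rw [norm_mul, norm_pow, hz, one_pow, mul_one, Complex.norm_real, Real.norm_eq_abs]
          exact hs j
      _ = 2 ^ e * n := by simp [mul_comm]
  have e3 : ((z⁻¹) ^ d * (∑ j, (r j : ℂ) * z ^ (j : ℕ))).re =
      2 ^ e * ((z⁻¹) ^ d * (∑ j, (q j : ℂ) * z ^ (j : ℕ))).re +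
      ((z⁻¹) ^ d * ∑ j, ((((r j : ℝ) - 2 ^ e * (q j : ℝ) : ℝ)) : ℂ) * z ^ (j : ℕ)).re := by
    rw [e1, mul_add, Complex.add_re]
    congr 1
    rw [show (z⁻¹) ^ d * (2 ^ e * ∑ j, (q j : ℂ) * z ^ (j : ℕ)) =
      (((2 : ℝ) ^ e : ℝ) : ℂ) * ((z⁻¹) ^ d * ∑ j, (q j : ℂ) * z ^ (j : ℕ)) by push_cast; ring,
      Complex.re_ofReal_mul]
  rw [e3, mul_add]
  have := (Complex.re_le_norm
    ((z⁻¹) ^ d * ∑ j, ((((r j : ℝ) - 2 ^ e * (q j : ℝ) : ℝ)) : ℂ) * z ^ (j : ℕ))).trans e2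
  linarith

end Pool.H42.ZU
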